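import Pool.Agent.X257.ML.Desc
import Pool.Agent.Y140.IG.PH
import Pool.Agent.TH444.ML.Real
import Pool.Agent.TH444.ML.Perm

/-!
# Every finite group occurs over all number fields that contain a suitable one
-/

set_option autoImplicit false

open Pool.Agent.TH444.TW (RegularOver)

namespace Pool.Agent.X257.ML

theorem regular_baseChange {k K H : Type} [Field k] [Field K] [Algebra k K] [Group H] [Finite H]
    (h : RegularOver k H) : RegularOver K H := by
  obtain ⟨F, i1, i2, i3, i4, i5, i6, ⟨γ⟩, h2⟩ := Pool.Agent.Y140.IG.regular_power (K := K) h 1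
  exact ⟨F, i1, i2, i3, i4, i5, i6, ⟨γ.trans (MulEquiv.piUnique fun _ : Fin 1 => H)⟩, h2⟩

theorem gal_nonempty_of_regular (K Ω : Type) [Field K] [NumberField K] [Field Ω] [Algebra K Ω]
    [IsAlgClosure K Ω] (H : Type) [Group H] [Finite H] (h : RegularOver K H) :
    (Pool.Agent.TH444.ML.Gal K Ω H).Nonempty := by
  obtain ⟨F, i1, i2, hfd, hg, ⟨γ⟩⟩ := Pool.Agent.Y140.IG.occurs_of_regular
    (Pool.Agent.H391R2.T4.hilb_numberField K) h
  have hac : IsAlgClosed Ω := IsAlgClosure.isAlgClosed K
  let j : F →ₐ[K] Ω := IsAlgClosed.lift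
  let ε : F ≃ₐ[K] j.fieldRange := AlgEquiv.ofInjectiveField j
  refine ⟨j.fieldRange, ?_, ?_, ?_⟩
  · exact Module.Finite.equiv ε.toLinearEquiv
  · exact IsGalois.of_algEquiv ε
  · exact ⟨(AlgEquiv.autCongr ε).symm.trans γ⟩

/-- There is a number field such that `H` is a Galois group over all number fields which
contain it. -/
theorem exists_numberField_gal (H : Type) [Group H] [Finite H] :
    ∃ (K₀ : Type) (_ : Field K₀), NumberField K₀ ∧ ∀ (K : Type) [Field K] [NumberField K]
      [Algebra K₀ K], (Pool.Agent.TH444.ML.Gal K (AlgebraicClosure K) H).Nonempty := by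
  obtain ⟨K₀, i, h1, h2⟩ := exists_numberField H
  exact ⟨K₀, i, h1, fun K _ _ _ => gal_nonempty_of_regular K _ H (regular_baseChange h2)⟩

end Pool.Agent.X257.ML
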