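import Pool.Agent.H33R2.V1b
import Pool.Agent.H33R2.ThmC2
import Pool.Agent.H33R2.AmpleK
import Pool.Agent.TH444.TW.ClsDef

/-!
# Regular realisations over number fields

Every finite group is the Galois group of a regular extension of `K₀(t)`, for some number field
`K₀`: it is realised regularly over `ℚ̄(t)` by patching, and the extension is defined over a number
field.
-/

set_option autoImplicit false

open Polynomial H33 H33.V1b
open Pool.Agent.TH444.TW (RegularOver)

namespace Pool.Agent.X257.ML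

/-- every finite group is realised regularly over an algebraically closed field of
characteristic zero -/
theorem regular_of_isAlgClosed (k : Type) [Field k] [CharZero k] [IsAlgClosed k]
    (H : Type) [Group H] [Finite H] : RegularOver k H := by
  classical
  have hne : NeZero ((Monoid.exponent H : ℕ) : k) :=
    ⟨Nat.cast_ne_zero.2 Monoid.exponent_ne_zero_of_finite⟩
  obtain ⟨ζ, hζ⟩ := HasEnoughRootsOfUnity.exists_primitiveRoot k (Monoid.exponent H)
  obtain ⟨F, i1, i2, i3, i4, i5, i6, i7, i8, γ, h1, h2⟩ :=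
    thmC k k k H (ample_of_isAlgClosed k) hζ 1
      (fun x => ⟨1, AlgEquiv.ext fun y => (x.commutes y).symm⟩) ⊥ (by simp) (by
        refine ⟨1, fun x => ?_⟩
        induction x using QuotientGroup.induction_on with
        | H h =>
          have h3 : ((h : H) : H ⧸ (⊥ ⊔ (1 : H →* (k ≃ₐ[k] k)).ker)) = 1 :=
            (QuotientGroup.eq_one_iff h).2 (Subgroup.mem_sup_right (by simp))
          rw [h3]; exact Subgroup.mem_zpowers 1)
  have h34 : i4 = i3 := Algebra.algebra_ext i4 i3 (fun x =>
    @IsScalarTower.algebraMap_apply k k F _ _ _ _ i3 i4 i6 x)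
  subst h34
  exact ⟨F, i1, i2, i4, i5, i7, i8, ⟨γ⟩, h2⟩

/-- A regular realisation over an algebraic extension of `ℚ` is defined over a number field. -/
theorem descend_numberField {K₁ : Type} [Field K₁] [Algebra ℚ K₁] [Algebra.IsAlgebraic ℚ K₁]
    {H : Type} [Group H] [Finite H] (h : RegularOver K₁ H) :
    ∃ K₀ : IntermediateField ℚ K₁, FiniteDimensional ℚ K₀ ∧ RegularOver K₀ H := by
  classical
  have hchar : CharZero K₁ := algebraRat.charZero K₁
  obtain ⟨F, iF, iA, iAK, tow, fd, gal, ⟨γ⟩, hreg0⟩ := h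
  have hreg : ∀ x : F, (∃ p : K₁[X], p ≠ 0 ∧
      eval₂ ((algebraMap (RatFunc K₁) F).comp RatFunc.C) x p = 0) →
      ∃ c : K₁, x = algebraMap (RatFunc K₁) F (RatFunc.C c) := by
    rintro x ⟨p, hp, hpx⟩
    have hc : (algebraMap (RatFunc K₁) F).comp RatFunc.C = algebraMap K₁ F := by
      refine RingHom.ext fun r => ?_
      rw [IsScalarTower.algebraMap_apply K₁ (RatFunc K₁) F]
      rfl
    rw [hc] at hpx
    obtain ⟨c, hc'⟩ := hreg0 x ⟨p, hp, hpx⟩
    exact ⟨c, by rw [← hc', ← hc]; rfl⟩
  let iP : Algebra K₁[X] F :=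
    ((algebraMap (RatFunc K₁) F).comp (algebraMap K₁[X] (RatFunc K₁))).toAlgebra
  have t3 : IsScalarTower K₁[X] (RatFunc K₁) F := IsScalarTower.of_algebraMap_eq (fun _ => rfl)
  have halg : Algebra.IsAlgebraic K₁[X] F :=
    IsFractionRing.comap_isAlgebraic_iff.2 (Algebra.IsAlgebraic.of_finite (RatFunc K₁) F)
  -- an integral primitive element
  obtain ⟨y0, hy0⟩ := Field.exists_primitive_element (RatFunc K₁) F
  obtain ⟨d, hd, hint⟩ := (halg.isAlgebraic y0).exists_integral_multiple
  set y : F := d • y0 with hy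
  have hdF : (algebraMap K₁[X] (RatFunc K₁) d) ≠ 0 := RatFunc.algebraMap_ne_zero hd
  have hyy : y0 = (algebraMap K₁[X] (RatFunc K₁) d)⁻¹ • y := by
    rw [hy, ← algebraMap_smul (RatFunc K₁) d y0, smul_smul, inv_mul_cancel₀ hdF, one_smul]
  have hadj : IntermediateField.adjoin (RatFunc K₁) {y} = ⊤ := by
    rw [eq_top_iff, ← hy0, IntermediateField.adjoin_simple_le_iff, hyy]
    exact IntermediateField.smul_mem _ (IntermediateField.mem_adjoin_simple_self _ _)
  set f : K₁[X][X] := minpoly K₁[X] y with hf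
  have hfm : f.Monic := minpoly.monic hint
  have hfi : Irreducible f := minpoly.irreducible hint
  have hfmap : f.map (algebraMap K₁[X] (RatFunc K₁)) = minpoly (RatFunc K₁) y :=
    (minpoly.isIntegrallyClosed_eq_field_fractions' (RatFunc K₁) hint).symm
  have hinj : Function.Injective
      ((algebraMap (RatFunc K₁) F).comp (algebraMap K₁[X] (RatFunc K₁))) :=
    (algebraMap (RatFunc K₁) F).injective.comp (RatFunc.algebraMap_injective K₁)
  have habs : ∀ (M : Type) [Field M] (ψ : K₁ →+* M), Irreducible (f.map (mapRingHom ψ)) := by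
    intro M _ ψ
    refine irreducible_of_regular ψ
      ((algebraMap (RatFunc K₁) F).comp (algebraMap K₁[X] (RatFunc K₁))) hinj f hfm hfi y
      (minpoly.aeval K₁[X] y) ?_
    rintro x ⟨p, hp, hpx⟩
    have hcomp : (((algebraMap (RatFunc K₁) F).comp (algebraMap K₁[X] (RatFunc K₁))).comp C) =
        (algebraMap (RatFunc K₁) F).comp RatFunc.C := by
      refine RingHom.ext fun c => ?_
      simp only [RingHom.comp_apply, RatFunc.algebraMap_C]
    rw [hcomp] at hpx
    obtain ⟨c, hc⟩ := hreg x ⟨p, hp, hpx⟩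
    refine ⟨c, hc.trans ?_⟩
    simp only [RingHom.comp_apply, RatFunc.algebraMap_C]
  obtain ⟨S, hS⟩ := spec_lemma y hadj ∅
  -- the number field
  let cc : Finset K₁ := (S.biUnion fun s => coefs s.num ∪ coefs s.denom) ∪
    (Finset.range (f.natDegree + 1)).biUnion fun i => coefs (f.coeff i)
  let K₀ : IntermediateField ℚ K₁ := IntermediateField.adjoin ℚ (cc : Set K₁)
  have hK₀fd : FiniteDimensional ℚ K₀ :=
    IntermediateField.finiteDimensional_adjoin fun x _ => Algebra.IsIntegral.isIntegral x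
  have hmemK : ∀ c ∈ cc, c ∈ K₀ := fun c hc => IntermediateField.subset_adjoin ℚ _ hc
  let v₀ : K₀ →+* K₁ := algebraMap K₀ K₁
  have hv₀ : Function.Injective v₀ := v₀.injective
  have hlift : ∀ p : K₁[X], (∀ c ∈ coefs p, c ∈ K₀) → ∃ pA : K₀[X], pA.map v₀ = p := by
    intro p hp
    obtain ⟨pA, hpA⟩ := lift_poly (K₀.toSubalgebra) p (fun c hc => hp c hc)
    exact ⟨pA, hpA⟩
  -- the polynomial over the number field
  obtain ⟨f₀, hf₀⟩ : ∃ f₀ : K₀[X][X], f₀.map (mapRingHom v₀) = f := by
    have h1 : f ∈ Polynomial.lifts (mapRingHom v₀) := by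
      rw [Polynomial.lifts_iff_coeff_lifts]
      intro n
      by_cases hn : n ∈ Finset.range (f.natDegree + 1)
      · obtain ⟨pA, hpA⟩ := hlift (f.coeff n) (fun c hc => hmemK c
          (Finset.mem_union_right _ (Finset.mem_biUnion.2 ⟨n, hn, hc⟩)))
        exact ⟨pA, hpA⟩
      · have : f.coeff n = 0 := by
          apply Polynomial.coeff_eq_zero_of_natDegree_lt
          rw [Finset.mem_range] at hn
          omega
        rw [this]
        exact ⟨0, map_zero _⟩
    exact (Polynomial.mem_lifts _).1 h1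
  have hf₀m : f₀.Monic := Polynomial.monic_of_injective
    (Polynomial.map_injective _ hv₀) (by rw [hf₀]; exact hfm)
  have hKalg : Algebra.IsAlgebraic K₀ K₁ := Algebra.IsAlgebraic.tower_top (K := ℚ) K₀
  have hirr' : Irreducible (f₀.map (mapRingHom (algebraMap K₀ (AlgebraicClosure K₀)))) := by
    let em : K₁ →ₐ[K₀] AlgebraicClosure K₀ := IsAlgClosed.lift
    have h1 : mapRingHom (algebraMap K₀ (AlgebraicClosure K₀)) =
        (mapRingHom (em : K₁ →+* AlgebraicClosure K₀)).comp (mapRingHom v₀) := by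
      rw [Polynomial.mapRingHom_comp]
      congr 1
      exact RingHom.ext fun r => (em.commutes r).symm
    rw [h1, ← Polynomial.map_map, hf₀]
    exact habs _ _
  have hf₀i : Irreducible f₀ :=
    Monic.irreducible_of_irreducible_map (mapRingHom (algebraMap K₀ (AlgebraicClosure K₀))) f₀
      hf₀m hirr'
  let ι : K₀[X] →+* RatFunc K₁ :=
    (algebraMap K₁[X] (RatFunc K₁)).comp (mapRingHom v₀)
  let θ : K₀[X] →+* RatFunc K₀ := algebraMap K₀[X] (RatFunc K₀)
  have hι : Function.Injective ι := (RatFunc.algebraMap_injective K₁).comp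
    (Polynomial.map_injective _ hv₀)
  have hSA : (S : Set (RatFunc K₁)) ⊆ (locA ι θ : Set (RatFunc K₁)) := by
    intro s hs
    obtain ⟨pA, hpA⟩ := hlift s.num (fun c hc => hmemK c (Finset.mem_union_left _
      (Finset.mem_biUnion.2 ⟨s, hs, Finset.mem_union_left _ hc⟩)))
    obtain ⟨qA, hqA⟩ := hlift s.denom (fun c hc => hmemK c (Finset.mem_union_left _
      (Finset.mem_biUnion.2 ⟨s, hs, Finset.mem_union_right _ hc⟩)))
    have hqm : qA.Monic := Polynomial.monic_of_injective hv₀ (by
      rw [hqA]; exact RatFunc.monic_denom s)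
    refine ⟨pA, qA, ?_, ?_⟩
    · exact RatFunc.algebraMap_ne_zero hqm.ne_zero
    · have h2 : algebraMap K₁[X] (RatFunc K₁) s.denom ≠ 0 :=
        RatFunc.algebraMap_ne_zero (RatFunc.denom_ne_zero s)
      show s * algebraMap K₁[X] (RatFunc K₁) (qA.map v₀) =
        algebraMap K₁[X] (RatFunc K₁) (pA.map v₀)
      rw [hqA, hpA]
      exact (div_eq_iff h2).1 (RatFunc.num_div_denom s) |>.symm
  have hfι : f₀.map ι = minpoly (RatFunc K₁) y := by
    rw [← hfmap, ← hf₀, Polynomial.map_map]
  obtain ⟨F', iF', iKF', fd', gal', ψ, B, hA, hB, Φ, hyB, hWB, hΦA, hΦσ, hfin⟩ :=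
    hS (locA ι θ) hSA (RatFunc K₀) (locφ hι) (f₀.map (toLoc ι θ))
      (by rw [Polynomial.map_map, ← hfι]; rfl)
      (by
        rw [Polynomial.map_map]
        have : (locφ hι : locA ι θ →+* RatFunc K₀).comp (toLoc ι θ) = θ :=
          RingHom.ext fun r => locφ_toLoc hι r
        rw [this]
        exact (hf₀m.irreducible_iff_irreducible_map_fraction_map).1 hf₀i)
  have hΦι : ∀ r : K₀[X], Φ ⟨algebraMap (RatFunc K₁) F (ι r), hA (toLoc ι θ r)⟩ =
      algebraMap (RatFunc K₀) F' (θ r) := by
    intro r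
    have h1 := hΦA (toLoc ι θ r)
    rw [locφ_toLoc] at h1
    exact h1
  let iKF : Algebra K₀ F' := ((algebraMap (RatFunc K₀) F').comp (algebraMap K₀ (RatFunc K₀))).toAlgebra
  have htow : IsScalarTower K₀ (RatFunc K₀) F' := IsScalarTower.of_algebraMap_eq (fun _ => rfl)
  refine ⟨K₀, hK₀fd, F', iF', iKF', iKF, htow, fd', gal', ⟨ψ.symm.trans γ⟩, ?_⟩
  rintro x ⟨p, hp, hpx⟩
  obtain ⟨c, hc⟩ := reg_of_irr f₀ hf₀m hirr' (Φ ⟨y, hyB⟩) (by
      rw [aeval_def, eval₂_map]
      let β : locA ι θ →+* B :=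
        ((algebraMap (RatFunc K₁) F).comp (locA ι θ).subtype).codRestrict B hA
      have h1 : (algebraMap (RatFunc K₀) F').comp θ = Φ.comp (β.comp (toLoc ι θ)) :=
        RingHom.ext fun r => (hΦι r).symm
      rw [h1, ← Polynomial.hom_eval₂]
      have h2 : eval₂ (β.comp (toLoc ι θ)) ⟨y, hyB⟩ f₀ = 0 := by
        apply Subtype.val_injective
        have h3 := Polynomial.hom_eval₂ f₀ (β.comp (toLoc ι θ)) B.subtype ⟨y, hyB⟩
        have h4 : eval₂ ((algebraMap (RatFunc K₁) F).comp ι) y f₀ = 0 := by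
          rw [← eval₂_map, hfι]
          exact minpoly.aeval _ _
        exact h3.trans h4
      rw [h2, map_zero]) (by
      rw [hfin, ← (Field.primitive_element_iff_minpoly_natDegree_eq (RatFunc K₁) y).1 hadj,
        ← hfι, hf₀m.natDegree_map]) x ⟨p, hp, hpx⟩
  exact ⟨c, hc.symm⟩

/-- Every finite group is realised regularly over some number field. -/
theorem exists_numberField (H : Type) [Group H] [Finite H] :
    ∃ (K₀ : Type) (_ : Field K₀), NumberField K₀ ∧ RegularOver K₀ H := by
  have halg : ∀ i : Algebra ℚ (AlgebraicClosure ℚ),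
      @Algebra.IsAlgebraic ℚ (AlgebraicClosure ℚ) _ _ i := by
    intro i
    have h : i = AlgebraicClosure.instAlgebra ℚ := Subsingleton.elim _ _
    rw [h]
    exact AlgebraicClosure.isAlgebraic ℚ
  have halg' := halg inferInstance
  obtain ⟨K₀, h1, h2⟩ := descend_numberField
    (regular_of_isAlgClosed (AlgebraicClosure ℚ) H)
  have h3 : CharZero K₀ := algebraRat.charZero K₀
  exact ⟨K₀, inferInstance, { to_charZero := h3, to_finiteDimensional := by convert h1 }, h2⟩

end Pool.Agent.X257.ML
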